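import Pool.Agent.Run7.h333.WS.Main

/-!
# The weak Serre conjecture over totally real fields and extensions with simple Galois group

Let `p ≥ 7` be a prime. All fields are totally real, all representations are continuous, totally odd and
irreducible, with values in `GL_2(F̄_p)`; modular means residually modular (the page: some cuspidal Hilbert
modular eigenform of weights `≥ 2`). The weak Serre conjecture says that all of them are modular; here
no field is fixed, the degree is arbitrary. From the published theorems which are listed in
`Run7.h333.WS.Known` (Khare-Wintenberger and Kisin over `ℚ`; Langlands and Tunnell; modularity lifting;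
potential modularity; solvable base change and descent in characteristic zero; Tate's theorem) we
prove:

* (1) *Modularity depends only on the solvable class.* If `R` over `F` has nonsolvable image and `R'` over `F'`
  becomes isomorphic to `R` up to a twist by a character over a field which is solvable over `F` and
  over `F'`, then `R` is modular if and only if `R'` is.
* (2) Every `R` over `F` is modular over some field `L` of degree prime to `r` over `F`, for every prime `r`. There
  is a Galois extension `K` of `F` such that `R` is modular over all fields `L` between `F` and `K` for which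
  `K` is solvable over `L`.
* (3) *Invariant representations.* Let `R` over `F` be invariant over `ℚ`: over a field `K` which is solvable
  over `F` and over `ℚ` it is isomorphic to all its conjugates by elements of `Gal(ℚ̄/ℚ)`, up to twists by
  characters. Then `R` is modular. The same for `F₁` in place of `ℚ` if the weak Serre conjecture holds over `F₁`;
  and without this assumption `R` is modular if and only if a certain representation over `F₁` is.
* (4) *Reduction to representations unramified everywhere.* Let `T` be a set of fields which
  contains solvable extensions, as large as one wants, of every field (e.g. the fields which contain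
  a given real quadratic field, or those of degree divisible by `n`). The weak Serre conjecture (for `p`)
  over all fields is equivalent to the case of representations `R` over fields in `T`, with nonsolvable
  image, unramified at all finite places, trivial on the decomposition groups above `p`, with
  determinant the cyclotomic character modulo `p`, and not invariant over any field over which the
  conjecture holds (in particular not over `ℚ`).
* (5) *Reduction to simple groups.* If moreover `T` contains all extensions of its fields (as in the
  examples) then the conjecture is equivalent to the following statement: if `F` is in `T`, `K` is a Galois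
  extension of `F` whose group is a nonabelian finite simple group, `R` over `F` is as in (4), with
  nonsolvable image over `K`, and `R` is modular over all fields `L` with `F ⊊ L ⊆ K`, then `R` is modular over `F`.

In the Lean theorem, `Γ = Gal(ℚ̄/ℚ)`, `E = F̄_p`, a number field is given by the open subgroup of `Γ` which
fixes it, and a representation by a map on `Γ` of which only the values on this subgroup matter. The
image, irreducibility, oddness, twists, conjugates, solvable extensions and extensions with simple group
are defined in Lean; modularity, the predicate `Unr` of (4) and the geometric lifts are abstract data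
subject to the known facts. (For `p ≥ 7` the hypotheses of the theorems of Kisin, Gee, Barnet-Lamb,
Gee and Geraghty, and Snowden are satisfied by representations with nonsolvable image.)

Proof. A nonsolvable image stays nonsolvable over solvable extensions, it is irreducible, and only scalar
matrices commute with it up to scalars (the matrices which commute with a nonscalar matrix up to
scalars form a metabelian group). (1): lift to a geometric representation, use modularity lifting over the
solvable extension and descend in characteristic zero. (3): the isomorphisms with the conjugates are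
unique up to scalars, so they form a projective representation which extends the given one, and by
Tate's theorem it lifts. (2) and (5): potential modularity; Sylow subgroups; induction over the
order of the Galois group.
-/

set_option autoImplicit false

namespace Pool.Agent.Results.MP_cab3fc_nt.SimpleDescent

open Run7.h615.ES (G2 sc)
open Run7.h333.WS

variable {Γ E : Type} [Group Γ] [Field E]

/-- (1) -/
def SolvableClass (D : Setting Γ E) : Prop :=
  ∀ H ∈ D.TR, ∀ G ∈ D.TR, ∀ K ∈ D.TR, SolvOver K H → SolvOver K G → ∀ R R', D.Rho H R →
    D.Rho G R' → Big H R → TwistIso K R R' → (D.Mod H R ↔ D.Mod G R')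

/-- (2) -/
def PrimeTo (D : Setting Γ E) : Prop :=
  ∀ H ∈ D.TR, ∀ R, D.Rho H R → Irr H R → ∃ K ∈ D.TR, K ≤ H ∧ (K.subgroupOf H).Normal ∧
    (∀ L, K ≤ L → L ≤ H → SolvOver K L → L ∈ D.TR ∧ D.Mod L R) ∧
    ∀ r : ℕ, r.Prime → ∃ L, K ≤ L ∧ L ≤ H ∧ SolvOver K L ∧ ¬ r ∣ (L.subgroupOf H).index

/-- (3) -/
def Invariant (D : Setting Γ E) : Prop :=
  (∀ H ∈ D.TR, ∀ R, D.Rho H R → Irr H R → D.InvOver ⊤ H R → D.Mod H R) ∧
    (∀ H ∈ D.TR, ∀ G ∈ D.TR, D.SerreOver G → ∀ R, D.Rho H R → Irr H R → D.InvOver G H R →
      D.Mod H R) ∧
    ∀ H ∈ D.TR, ∀ G ∈ D.TR, ∀ R, D.Rho H R → Big H R → D.InvOver G H R →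
      ∃ R', D.Rho G R' ∧ Big G R' ∧ (D.Mod H R ↔ D.Mod G R')

/-- the weak Serre conjecture for `p` -/
def WeakSerre (D : Setting Γ E) : Prop :=
  ∀ H ∈ D.TR, ∀ R, D.Rho H R → Irr H R → D.Mod H R

/-- the representations of (4) and (5) -/
structure Special (D : Setting Γ E) (H : Subgroup Γ) (R : Γ → G2 E) : Prop where
  rho : D.Rho H R
  big : Big H R
  unr : D.Unr H R
  remote : D.Remote H R

/-- (4) -/
def Reduction (D : Setting Γ E) : Prop :=
  ∀ T, D.Cofinal T →
    (WeakSerre D ↔ ∀ H ∈ T, H ∈ D.TR → ∀ R, Special D H R → D.Mod H R)

/-- (5) -/
def SimpleGroups (D : Setting Γ E) : Prop :=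
  ∀ T, D.Cofinal T → D.Closed T →
    (WeakSerre D ↔ ∀ H ∈ T, H ∈ D.TR → ∀ K ∈ D.TR, SimpleOver K H → ∀ R, Special D H R → Big K R →
      (∀ L, K ≤ L → L ≤ H → L ≠ H → D.Mod L R) → D.Mod H R)

theorem solvOver_self (H : Subgroup Γ) : SolvOver H H := by
  have h1 : H.subgroupOf H = ⊤ := Subgroup.subgroupOf_self H
  have h2 : (H.subgroupOf H).Normal := by rw [h1]; infer_instance
  refine ⟨le_rfl, h2, Group.isSolvable_of_comm fun a b => ?_⟩
  obtain ⟨a, rfl⟩ := QuotientGroup.mk_surjective a
  obtain ⟨b, rfl⟩ := QuotientGroup.mk_surjective b
  have e : ∀ c : H, ((c : H) : H ⧸ H.subgroupOf H) = 1 := fun c => by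
    rw [QuotientGroup.eq_one_iff]
    exact c.2
  rw [e a, e b]

/-- **The weak Serre conjecture over totally real fields: solvable classes, invariant
representations, reduction to representations unramified everywhere and to simple Galois
groups.** -/
theorem result : ∀ (Γ E : Type) [Group Γ] [Field E] (D : Setting Γ E), Known D →
    SolvableClass D ∧ PrimeTo D ∧ Invariant D ∧ Reduction D ∧ SimpleGroups D := by
  intro Γ E _ _ D h
  refine ⟨?_, ?_, ⟨?_, ?_, ?_⟩, ?_, ?_⟩
  · intro H hH G hG K hK hs hs' R R' hR hR' hb ht
    exact h.mod_iff_of_twistIso hH hG hK hs hs' hR hR' hb ht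
  · intro H hH R hR hi
    by_cases hb : Big H R
    · exact h.prime_to hH hR hb
    · have hm := h.solvable H hH R hR hi hb
      refine ⟨H, hH, le_rfl, (solvOver_self H).2.1, ?_, ?_⟩
      · intro L h1 h2 _
        have e : L = H := le_antisymm h2 h1
        rw [e]
        exact ⟨hH, hm⟩
      · intro r hr
        refine ⟨H, le_rfl, le_rfl, solvOver_self H, ?_⟩
        rw [Subgroup.subgroupOf_self, Subgroup.index_top]
        exact hr.one_lt.ne' ∘ Nat.dvd_one.mp
  · intro H hH R hR hi hinv
    by_cases hb : Big H R
    · exact h.mod_of_inv hH h.top_mem hR hb hinv h.serreOver_top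
    · exact h.solvable H hH R hR hi hb
  · intro H hH G hG hS R hR hi hinv
    by_cases hb : Big H R
    · exact h.mod_of_inv hH hG hR hb hinv hS
    · exact h.solvable H hH R hR hi hb
  · intro H hH G hG R hR hb hinv
    exact h.exists_descent hH hG hR hb hinv
  · intro T hT
    constructor
    · intro hW H _ hH R hR
      exact hW H hH R hR.rho hR.big.irr
    · intro hyp H hH R hR hi
      exact h.reduction hT (fun L hLT hL R h1 h2 h3 h4 => hyp L hLT hL R ⟨h1, h2, h3, h4⟩) H hH R
        hR hi
  · intro T hT hC
    constructor
    · intro hW H _ hH K _ _ R hR _ _
      exact hW H hH R hR.rho hR.big.irr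
    · intro hyp H hH R hR hi
      exact h.simple_reduction hT hC (fun L hLT hL K hK hs R h1 h2 h3 h4 h5 =>
        hyp L hLT hL K hK hs R ⟨h1, h2.up hs.1, h3, h4⟩ h2 h5) H hH R hR hi

end Pool.Agent.Results.MP_cab3fc_nt.SimpleDescent
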